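import Pool.Agent.NTW.StmtsA

/-!
# NTW squad (MP_e54c4c_gt), row PTP (helper20): adapted simplices through a given point
-/

set_option autoImplicit false

open Matrix Filter Topology

namespace Pool.Agent.NTW.H20

open Pool.Agent.PFS Pool.Agent.PFJ Pool.Agent.NTS Pool.Agent.NTW

/-- zero is not a unit of a subspace containing a nonzero element of the closed cone -/
theorem zero_not_unt {n : ℕ} {C : Set (V n)} (h : PCone C) {L : Submodule ℝ (V n)} {w : V n}
    (hwL : w ∈ L) (hw : w ∈ closure C) (hw0 : w ≠ 0) : ¬ Unt C L 0 := by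
  intro h0
  obtain ⟨M, _, hM⟩ := h0.2.2 w hwL
  rw [smul_zero, zero_sub] at hM
  exact hw0 (h.salient w hw hM)

theorem ptp (hD : DcpStmt) (hE : EiwStmt) (hC : ChwStmt) : PtpStmt := by
  classical
  intro n C Γ K c τ hdom w hw p hpW hpC
  have hP : PCone C := hdom.toCC.toPCone
  obtain ⟨d1, d2, _, _, _, d6, d7⟩ := hD n C Γ K c τ hdom w hw
  obtain ⟨_, _, e3, e4⟩ := hE n C Γ K c τ hdom w hw
  have hU := Pool.Agent.PFJ.H76.unf n C hP
  have hinv : ∀ i, τ (τ i) = i := hdom.toTau.inv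
  obtain ⟨x, hx, hxs⟩ := (d6 p).1 hpW
  have hyU : ∀ i, Unt C (Lf C τ w i) (x i + x (τ i)) := (d7 x hx).1 (hxs ▸ hpC)
  -- the maximal subtraction
  have key : ∀ i, ∃ s : ℝ, 0 < s ∧ (x i + x (τ i)) - s • w i ∈ closure C ∧
      ∀ t : ℝ, (x i + x (τ i)) - t • w i ∈ closure C → t ≤ s := by
    intro i
    exact Pool.Agent.PFJ.H25.exists_tau hP (e3 i).2.2 (e3 i).2.1 ((hyU i).2.2 _ (d1 i))
      (hyU i).2.1
  choose s hs0 hscl hsmax using key
  have hnw : ∀ i, τ i ≠ i → ¬ Unt C (Lf C τ w i) (w i) := fun i hi =>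
    (e4 i hi (w i) (d1 i) (e3 i).2.1).1 (e3 i).1
  have hz : ∀ i, ¬ Unt C (Lf C τ w i) 0 := fun i =>
    zero_not_unt hP (d1 i) (e3 i).2.1 (e3 i).2.2
  -- the unit is not a multiple of the vertex
  have hnm : ∀ i, τ i ≠ i → ∀ r : ℝ, x i + x (τ i) ≠ r • w i := by
    intro i hi r hr
    rcases le_or_gt r 0 with h0 | h0
    · have h1 : -(x i + x (τ i)) ∈ closure C := by
        rw [hr, ← neg_smul]
        exact hP.cl_smul (e3 i).2.1 (by linarith)
      have h2 := hP.salient _ (hyU i).2.1 h1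
      exact hz i (h2 ▸ hyU i)
    · have h1 := (hU (Lf C τ w i) _ (hyU i)).1 r⁻¹ (inv_pos.mpr h0)
      rw [hr, smul_smul, inv_mul_cancel₀ h0.ne', one_smul] at h1
      exact hnw i hi h1
  have hA : ∀ i, τ i ≠ i → ¬ Unt C (Lf C τ w i) (s i • w i) := by
    intro i hi hu
    have h1 := (hU (Lf C τ w i) _ hu).1 (s i)⁻¹ (inv_pos.mpr (hs0 i))
    rw [smul_smul, inv_mul_cancel₀ (hs0 i).ne', one_smul] at h1
    exact hnw i hi h1
  have hB : ∀ i, ¬ Unt C (Lf C τ w i) ((x i + x (τ i)) - s i • w i) := by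
    intro i hu
    obtain ⟨ε, hε, hu2⟩ := (hU (Lf C τ w i) _ hu).2.2.2.1 (w i) (d1 i)
    have h1 := hu2.2.1
    have h2 : (x i + x (τ i)) - s i • w i - ε • w i = (x i + x (τ i)) - (s i + ε) • w i := by
      rw [add_smul]; abel
    rw [h2] at h1
    have := hsmax i _ h1
    linarith
  have hne : ∀ i, τ i ≠ i → (x i + x (τ i)) - s i • w i ≠ 0 := fun i hi h0 =>
    hnm i hi (s i) (sub_eq_zero.mp h0)
  have hind : ∀ i, τ i ≠ i → ∀ a b : ℝ,
      a • (s i • w i) + b • ((x i + x (τ i)) - s i • w i) = 0 → a = 0 ∧ b = 0 := by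
    intro i hi a b hab
    have hb : b = 0 := by
      by_contra hb
      apply hnm i hi (b⁻¹ * (b * s i - a * s i))
      have h1 : b • (x i + x (τ i)) = (b * s i - a * s i) • w i := by
        rw [smul_sub, smul_smul, smul_smul] at hab
        rw [sub_smul]
        have h2 : b • (x i + x (τ i)) = (b * s i) • w i - (a * s i) • w i +
            ((a * s i) • w i + (b • (x i + x (τ i)) - (b * s i) • w i)) := by abel
        rw [h2, hab, add_zero]
      rw [← smul_smul, ← h1, smul_smul, inv_mul_cancel₀ hb, one_smul]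
    refine ⟨?_, hb⟩
    rw [hb, zero_smul, add_zero, smul_smul] at hab
    rcases smul_eq_zero.mp hab with h1 | h1
    · rcases mul_eq_zero.mp h1 with h2 | h2
      · exact h2
      · exact absurd h2 (hs0 i).ne'
    · exact absurd h1 (e3 i).2.2
  -- the new simplex
  obtain ⟨w', hw'⟩ : ∃ w' : Fin K → V n, w' = fun i => if τ i = i then x i else
      if i < τ i then s i • w i else (x (τ i) + x (τ (τ i))) - s (τ i) • w (τ i) := ⟨_, rfl⟩
  have w1 : ∀ i, τ i = i → w' i = x i := by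
    intro i hi
    rw [hw']
    simp only
    rw [if_pos hi]
  have w2 : ∀ i, i < τ i → w' i = s i • w i := by
    intro i hi
    rw [hw']
    simp only
    rw [if_neg (ne_of_gt hi), if_pos hi]
  have w3 : ∀ i, i < τ i → w' (τ i) = (x i + x (τ i)) - s i • w i := by
    intro i hi
    rw [hw']
    simp only
    rw [hinv i, if_neg (ne_of_lt hi), if_neg (not_lt.mpr hi.le)]
  have hcase : ∀ i, τ i = i ∨ i < τ i ∨ ∃ j, j < τ j ∧ i = τ j := by
    intro i
    rcases lt_trichotomy i (τ i) with h1 | h1 | h1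
    · exact Or.inr (Or.inl h1)
    · exact Or.inl h1.symm
    · refine Or.inr (Or.inr ⟨τ i, ?_, (hinv i).symm⟩)
      rw [hinv i]; exact h1
  have hLτ : ∀ i, Lf C τ w (τ i) = Lf C τ w i := d2
  have hymem : ∀ i, x i + x (τ i) ∈ Lf C τ w i := fun i => (hyU i).1
  have h1 : ∀ i, w' i ∈ Lf C τ w i ∧ w' i ∈ closure C ∧ w' i ≠ 0 := by
    intro i
    rcases hcase i with hi | hi | ⟨j, hj, rfl⟩
    · rw [w1 i hi]
      have h2 := (hyU i)
      rw [hi, ← two_smul ℝ (x i)] at h2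
      refine ⟨hx i, ?_, ?_⟩
      · exact (hP.cl_smul_iff (by norm_num : (0 : ℝ) < 2)).1 h2.2.1
      · intro h0
        rw [h0, smul_zero] at h2
        exact hz i h2
    · rw [w2 i hi]
      refine ⟨(Lf C τ w i).smul_mem _ (d1 i), hP.cl_smul (e3 i).2.1 (hs0 i).le, ?_⟩
      exact smul_ne_zero (hs0 i).ne' (e3 i).2.2
    · rw [w3 j hj, hLτ j]
      exact ⟨(Lf C τ w j).sub_mem (hymem j) ((Lf C τ w j).smul_mem _ (d1 j)), hscl j,
        hne j (ne_of_gt hj)⟩
  have h2 : ∀ i, τ i ≠ i → Ind2 (w' i) (w' (τ i)) ∧ ¬ Unt C (Lf C τ w i) (w' i) := by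
    intro i hi
    rcases hcase i with h | h | ⟨j, hj, rfl⟩
    · exact absurd h hi
    · rw [w2 i h, w3 i h]
      exact ⟨fun a b hab => hind i hi a b hab, hA i hi⟩
    · rw [hinv j, w3 j hj, w2 j hj, hLτ j]
      refine ⟨fun a b hab => ?_, hB j⟩
      rw [add_comm] at hab
      exact (hind j (ne_of_gt hj) b a hab).symm
  obtain ⟨c1, c2, _⟩ := hC n C Γ K c τ hdom w hw w' h1 h2
  refine ⟨w', c1, c2, ?_⟩
  have hsum : ∀ i, w' i + w' (τ i) = x i + x (τ i) := by
    intro i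
    rcases hcase i with h | h | ⟨j, hj, rfl⟩
    · rw [h, w1 i h]
    · rw [w2 i h, w3 i h]; abel
    · rw [hinv j, w3 j hj, w2 j hj]; abel
  have hperm : ∀ f : Fin K → V n, ∑ i, f (τ i) = ∑ i, f i := by
    intro f
    exact Equiv.sum_comp (Function.Involutive.toPerm τ hinv) f
  have hd : (2 : ℝ) • ∑ i, w' i = (2 : ℝ) • p := by
    rw [two_smul, two_smul]
    nth_rw 2 [← hperm w']
    rw [← Finset.sum_add_distrib, Finset.sum_congr rfl fun i _ => hsum i,
      Finset.sum_add_distrib, hperm x, hxs]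
  have h2ne : (2 : ℝ) ≠ 0 := by norm_num
  exact smul_right_injective _ h2ne hd

end Pool.Agent.NTW.H20
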